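import Pool.Agent.Ntp.Five

/-!
# The parities of `NT(1, 5, k)`, `NT(4, 5, k)` and of `NT(2, 5, k)`, `NT(3, 5, k)` agree and differ often,
# outside the residue classes of Mao's identities

Let `rk` be Dyson's rank and `F_r(n)` the number of partitions of `n` with `rk ≡ r mod 10`.

(1) Conjugation exchanges the largest part and the number of parts, so `NT(r, 5, n) + NT(-r, 5, n)` is the sum of both over
the partitions with `rk ≡ r mod 5`, which is `F_r(n)` mod 2 (`r` odd). Take `r = 1` for the pair `(1, 4)`, `r = 3` for `(2, 3)`.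

(2) Dyson: the partitions of `N` with rank `≥ r` are as many as those of `N - r - 1` with rank `≤ r + 2` (remove the
largest part, add a column). So `G(N, r)`, the number of partitions of `N` with rank `≥ r`, is mod 2 the sum of the
`p(N - k (3 k - 1) / 2 - k r)`, `k ≥ 1`, and `F = L * p` mod 2, where `L(N)` is the number of the
`(k, μ)`, `k, μ ≥ 1`, with `k (3 k - 1) / 2 + k μ = N` and `μ mod 10 ∈ {0, 1, 2, 9}` (`r = 1`), `{3, 4, 7, 8}` (`r = 3`).
The same for `r = 0, 1` gives Euler's recursion `e * p = 1`, `e` the indicator function of the generalised pentagonal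
numbers, hence `e * F = L` and `e * (F + 1) = L + (the partial sums of e)` mod 2.

(3) `L(N)` is a restricted divisor function of `2 N`. It is odd for `N` prime, `N ≡ 7` or `13 mod 20` (`r = 1`), and for `N = 5 p`,
`p ≡ 9 mod 20` prime (`r = 3`). If `41` divides `N` exactly once and `2 N` has no divisor near its square root, then `L(N)` is
even: pair `k` with `41 k`, as `41 ≡ 1 mod 20`.

(4) There are at most `2 √x + 1` pentagonal numbers `≤ x`, and they are `0, 1, 2 mod 5`. So if `N ≡ a mod 5` the identities of (2)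
use only the values `F(n)` with `n ≡ a, a - 1, a - 2 mod 5`: this is the set `T` of the theorem for `a = 2, 3` (pair `(1, 4)`) and `a = 0` (pair
`(2, 3)`). By (2), (3) and the prime number theorem in progressions (Siegel-Walfisz, library `Pool.Agent.SWz`) `F` is odd at least
`c √x / log x` times. The partial sums of `e` are odd in the long gaps between pentagonal numbers, so `F` is even at least `c √x`
times if `L(N)` is even for at least `c x` numbers `N ≡ a mod 5` in long gaps, and this follows from (3) since almost no integers have a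
divisor near the square root (multiplication table; Turán's inequality for a finite set of primes).
-/

set_option autoImplicit false

open Ntp Finset

/-- For `(i, j, T) = (1, 4, {0, 1, 2})`, `(1, 4, {1, 2, 3})`, `(2, 3, {0, 3, 4})`: among the `k ≤ x` with `k mod 5 ∈ T` the sums
`NT(i, 5, k)` and `NT(j, 5, k)` have the same parity at least `c √x` times and different parity at least `c √x / log x` times. -/
theorem Pool.Agent.Results.MP_1f7998_nt.BothParities.result (i j : ℤ) (T : Finset ℕ)
    (h : (i = 1 ∧ j = 4 ∧ T = {0, 1, 2}) ∨ (i = 1 ∧ j = 4 ∧ T = {1, 2, 3}) ∨ (i = 2 ∧ j = 3 ∧ T = {0, 3, 4})) :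
    ∃ c : ℝ, 0 < c ∧ ∃ x₀ : ℕ, ∀ x : ℕ, x₀ ≤ x →
      c * √x ≤ (((Icc 1 x).filter fun k => k % 5 ∈ T ∧ NT i 5 k ≡ NT j 5 k [MOD 2]).card : ℝ) ∧
      c * √x / Real.log x ≤
        (((Icc 1 x).filter fun k => k % 5 ∈ T ∧ ¬ NT i 5 k ≡ NT j 5 k [MOD 2]).card : ℝ) := by
  rcases h with ⟨hi, hj, hT⟩ | ⟨hi, hj, hT⟩ | ⟨hi, hj, hT⟩
  · exact main5 (r := 1) (S := S1) (a := 2) (Or.inl ⟨hi, hj, rfl, rfl, rfl, hT⟩)
  · exact main5 (r := 1) (S := S1) (a := 3) (Or.inr (Or.inl ⟨hi, hj, rfl, rfl, rfl, hT⟩))
  · exact main5 (r := 3) (S := S3) (a := 0) (Or.inr (Or.inr ⟨hi, hj, rfl, rfl, rfl, hT⟩))
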